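import Pool.Agent.N783.CF.WR

/-!
# The roots of one fibre and the power `s ^ (2 g + 1)` of a Frobenius element

Leaf WR/FBR of the project WR of helper783, by helper749.
-/

set_option autoImplicit false
set_option linter.all false

open Polynomial NumberField
open scoped Classical

namespace Pool.Agent.N749.WR

open Pool.Agent.N783.PF (Bd Ht dsc fF SqF IsGen Fam GoodS GoodF LBad Cg sp rd)
open Pool.Agent.N783.CF

/-- Splitting over the ring of all integers. -/
theorem spl {Ω : Type} [Field Ω] [CharZero Ω] [IsAlgClosed Ω] (F : (integralClosure ℤ Ω)[X])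
    (hF : F.Monic) :
    ∃ R : Multiset (integralClosure ℤ Ω), F = (R.map (fun x => X - C x)).prod ∧
      R.map (fun x : integralClosure ℤ Ω => (x : Ω)) = (F.map (algebraMap (integralClosure ℤ Ω) Ω)).roots := by
  set F' := F.map (algebraMap (integralClosure ℤ Ω) Ω) with hF'
  have hm : F'.Monic := hF.map _
  have hint : ∀ z ∈ F'.roots, z ∈ integralClosure ℤ Ω := by
    intro z hz
    have h1 : IsIntegral (integralClosure ℤ Ω) z := by
      refine ⟨F, hF, ?_⟩
      have := (mem_roots hm.ne_zero).1 hz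
      rw [IsRoot.def, hF', eval_map] at this
      exact this
    have h2 : IsIntegral ℤ z := isIntegral_trans z h1
    exact h2
  refine ⟨F'.roots.pmap (fun z hz => ⟨z, hz⟩) hint, ?_, ?_⟩
  · apply Polynomial.map_injective (algebraMap (integralClosure ℤ Ω) Ω)
      (FaithfulSMul.algebraMap_injective _ _)
    rw [← hF', Polynomial.map_multiset_prod, Multiset.map_map]
    have h3 : (F'.roots.map (fun x => X - C x)).prod = F' := by
      have hsp : F'.Splits := IsAlgClosed.splits F'
      exact (hsp.eq_prod_roots_of_monic hm).symm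
    conv_lhs => rw [← h3]
    congr 1
    rw [Multiset.map_pmap]
    simp only [Function.comp]
    rw [← Multiset.pmap_eq_map (p := fun z => z ∈ integralClosure ℤ Ω) (fun x => X - C x) F'.roots hint]
    refine Multiset.pmap_congr _ ?_
    intro a _ h1 h2
    simp
  · rw [Multiset.map_pmap]
    conv_rhs => rw [← Multiset.map_id F'.roots]
    rw [← Multiset.pmap_eq_map (p := fun z => z ∈ integralClosure ℤ Ω) id F'.roots hint]
    rfl

/-- Reduction of the roots. -/
theorem red {Ω k : Type} [Field Ω] [CharZero Ω] [IsAlgClosed Ω] [Field k]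
    (F : (integralClosure ℤ Ω)[X]) (hF : F.Monic) (r : integralClosure ℤ Ω →+* k)
    (hs : (F.map r).Separable) :
    ∃ ρ : Ω → k, (∀ x : integralClosure ℤ Ω, ρ (x : Ω) = r x) ∧
      {z : Ω | (F.map (algebraMap (integralClosure ℤ Ω) Ω)).eval z = 0}.ncard = F.natDegree ∧
      Set.InjOn ρ {z : Ω | (F.map (algebraMap (integralClosure ℤ Ω) Ω)).eval z = 0} ∧
      (∀ z : Ω, (F.map (algebraMap (integralClosure ℤ Ω) Ω)).eval z = 0 →
        (F.map r).eval (ρ z) = 0 ∧ ∃ x : integralClosure ℤ Ω, (x : Ω) = z) ∧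
      ∀ y : k, (F.map r).eval y = 0 →
        ∃ z : Ω, (F.map (algebraMap (integralClosure ℤ Ω) Ω)).eval z = 0 ∧ ρ z = y := by
  obtain ⟨R, hR, hR2⟩ := spl F hF
  set F' := F.map (algebraMap (integralClosure ℤ Ω) Ω) with hF'
  have hm : F'.Monic := hF.map _
  have hroots : (F.map r).roots = R.map r := by
    conv_lhs => rw [hR]
    rw [Polynomial.map_multiset_prod, Multiset.map_map]
    have : (R.map ((Polynomial.map r) ∘ fun x => X - C x)) = (R.map r).map (fun a => X - C a) := by
      rw [Multiset.map_map]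
      refine Multiset.map_congr rfl ?_
      intro x _
      simp
    rw [this, Polynomial.roots_multiset_prod_X_sub_C]
  have hnd : (R.map r).Nodup := by
    rw [← hroots]
    exact nodup_roots hs
  have hRnd : R.Nodup := Multiset.Nodup.of_map _ hnd
  have hinj : ∀ x ∈ R, ∀ y ∈ R, r x = r y → x = y := by
    intro x hx y hy hxy
    exact Multiset.inj_on_of_nodup_map hnd x hx y hy hxy
  have hmemZ : ∀ z : Ω, F'.eval z = 0 ↔ ∃ x ∈ R, (x : Ω) = z := by
    intro z
    have h1 : F'.eval z = 0 ↔ z ∈ F'.roots := by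
      rw [mem_roots hm.ne_zero, IsRoot.def]
    rw [h1, ← hR2, Multiset.mem_map]
  have hcard : Multiset.card R = F.natDegree := by
    conv_rhs => rw [hR]
    rw [natDegree_multiset_prod_X_sub_C_eq_card]
  refine ⟨fun z => if h : z ∈ integralClosure ℤ Ω then r ⟨z, h⟩ else 0, ?_, ?_, ?_, ?_, ?_⟩
  · intro x
    simp
  · have : {z : Ω | F'.eval z = 0} = ((R.toFinset.image (fun x : integralClosure ℤ Ω => (x : Ω)) : Finset Ω) : Set Ω) := by
      ext z
      simp only [Set.mem_setOf_eq, Finset.coe_image, Set.mem_image, Finset.mem_coe,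
        Multiset.mem_toFinset]
      exact hmemZ z
    rw [this, Set.ncard_coe_finset, Finset.card_image_of_injective _ Subtype.val_injective,
      Multiset.toFinset_card_of_nodup hRnd, hcard]
  · intro z hz z' hz' h
    obtain ⟨x, hx, rfl⟩ := (hmemZ z).1 hz
    obtain ⟨x', hx', rfl⟩ := (hmemZ z').1 hz'
    have h2 : r x = r x' := by simpa using h
    rw [hinj x hx x' hx' h2]
  · intro z hz
    obtain ⟨x, hx, rfl⟩ := (hmemZ z).1 hz
    refine ⟨?_, x, rfl⟩
    have h1 : r x ∈ (F.map r).roots := by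
      rw [hroots]; exact Multiset.mem_map_of_mem _ hx
    have h2 := (mem_roots (hF.map r).ne_zero).1 h1
    simpa using h2
  · intro y hy
    have h1 : y ∈ (F.map r).roots := (mem_roots (hF.map r).ne_zero).2 hy
    rw [hroots, Multiset.mem_map] at h1
    obtain ⟨x, hx, rfl⟩ := h1
    exact ⟨x, (hmemZ _).2 ⟨x, hx, rfl⟩, by simp⟩

/-- The residue field has `q` elements. -/
theorem crd {κ : Type} [Field κ] (q : ℕ) (hq : q.Prime) (h0 : (q : κ) = 0)
    (h : ∀ a : κ, a ^ q = a) : Finite κ ∧ Nat.card κ = q := by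
  have hP : (X ^ q - X : κ[X]) ≠ 0 := by
    have := FiniteField.X_pow_card_sub_X_ne_zero κ hq.one_lt
    exact this
  have hdeg : (X ^ q - X : κ[X]).natDegree = q :=
    FiniteField.X_pow_card_sub_X_natDegree_eq κ hq.one_lt
  have hall : ∀ a : κ, a ∈ (X ^ q - X : κ[X]).roots.toFinset := by
    intro a
    rw [Multiset.mem_toFinset, mem_roots hP, IsRoot.def]
    simp [h a]
  have hfin : Finite κ := by
    refine Set.finite_univ_iff.1 (Set.Finite.subset
      (Finset.finite_toSet (X ^ q - X : κ[X]).roots.toFinset) ?_)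
    intro a _
    exact hall a
  refine ⟨hfin, le_antisymm ?_ ?_⟩
  · haveI := Fintype.ofFinite κ
    rw [Nat.card_eq_fintype_card, ← Finset.card_univ]
    calc (Finset.univ : Finset κ).card ≤ (X ^ q - X : κ[X]).roots.toFinset.card :=
          Finset.card_le_card (fun a _ => hall a)
      _ ≤ Multiset.card (X ^ q - X : κ[X]).roots := Multiset.toFinset_card_le _
      _ ≤ (X ^ q - X : κ[X]).natDegree := card_roots' _
      _ = q := hdeg
  · haveI : CharP κ q := (CharP.charP_iff_prime_eq_zero hq).2 h0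
    haveI : Fact q.Prime := ⟨hq⟩
    have := Nat.card_le_card_of_injective (ZMod.castHom (dvd_refl q) κ)
      (ZMod.castHom_injective κ)
    rwa [Nat.card_zmod] at this

/-- The leaf. -/
theorem t_FBR : S_FF → S_FBR := by
  intro hFF g K _ _ M _ f h q 𝔔 𝔭 φ s hg hq hSpl h𝔔 hq𝔔 h𝔭 hq𝔭 hker hf hdeg hs hfr
  haveI := h𝔔
  haveI := h𝔭
  have hne : 𝔭 ≠ ⊥ := by
    intro h0
    rw [h0, Ideal.mem_bot] at hq𝔭
    exact hq.ne_zero (by exact_mod_cast hq𝔭)
  haveI hmax : 𝔭.IsMaximal := h𝔭.isMaximal hne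
  let κ := 𝓞 M ⧸ 𝔭
  letI : Field κ := Ideal.Quotient.field 𝔭
  let k := FractionRing ((integralClosure ℤ (AlgebraicClosure K)) ⧸ 𝔔)
  -- the map 𝓞 M → (integralClosure ℤ (AlgebraicClosure K))
  have hint : ∀ a : 𝓞 M, ((φ : M →+* AlgebraicClosure K).comp (algebraMap (𝓞 M) M)) a ∈ (integralClosure ℤ (AlgebraicClosure K)) := by
    intro a
    have h1 : IsIntegral ℤ (a : M) := a.isIntegral_coe
    exact h1.map (φ : M →+* AlgebraicClosure K).toIntAlgHom
  let ψ : 𝓞 M →+* (integralClosure ℤ (AlgebraicClosure K)) :=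
    ((φ : M →+* AlgebraicClosure K).comp (algebraMap (𝓞 M) M)).codRestrict (integralClosure ℤ (AlgebraicClosure K)) hint
  have hψ : ∀ a : 𝓞 M, ((ψ a : (integralClosure ℤ (AlgebraicClosure K))) : AlgebraicClosure K) = φ (a : M) := fun a => rfl
  let r : (integralClosure ℤ (AlgebraicClosure K)) →+* k := (algebraMap ((integralClosure ℤ (AlgebraicClosure K)) ⧸ 𝔔) k).comp (Ideal.Quotient.mk 𝔔)
  have hr0 : ∀ x : (integralClosure ℤ (AlgebraicClosure K)), r x = 0 ↔ x ∈ 𝔔 := by
    intro x
    show algebraMap ((integralClosure ℤ (AlgebraicClosure K)) ⧸ 𝔔) k (Ideal.Quotient.mk 𝔔 x) = 0 ↔ _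
    rw [← Ideal.Quotient.eq_zero_iff_mem]
    exact FaithfulSMul.algebraMap_eq_zero_iff _ _
  have hker2 : ∀ a : 𝓞 M, a ∈ 𝔭 → (r.comp ψ) a = 0 := by
    intro a ha
    obtain ⟨y, hy, hy2⟩ := (hker a).1 ha
    show r (ψ a) = 0
    rw [hr0]
    have : ψ a = y := Subtype.ext (by rw [hψ, hy2])
    rw [this]; exact hy
  let ι : κ →+* k := Ideal.Quotient.lift 𝔭 (r.comp ψ) hker2
  have hι : ι.comp (Ideal.Quotient.mk 𝔭) = r.comp ψ := by
    ext a; rfl
  letI : Algebra κ k := ι.toAlgebra
  have h0 : ((q : ℕ) : κ) = 0 := by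
    have : (Ideal.Quotient.mk 𝔭 ((q : ℕ) : 𝓞 M)) = 0 := Ideal.Quotient.eq_zero_iff_mem.2 hq𝔭
    simpa using this
  have hpow : ∀ a : κ, a ^ q = a := by
    intro a
    obtain ⟨b, rfl⟩ := Ideal.Quotient.mk_surjective a
    have := hSpl 𝔭 h𝔭 hq𝔭 b
    rw [← Ideal.Quotient.eq_zero_iff_mem, map_sub, map_pow, sub_eq_zero] at this
    exact this
  obtain ⟨hfin, hcard⟩ := crd q hq h0 hpow
  haveI := hfin
  -- the polynomial
  set F : (integralClosure ℤ (AlgebraicClosure K))[X] := f.map ψ with hFdef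
  have hFm : F.Monic := hf.map ψ
  have hZr : ∀ z : AlgebraicClosure K, z ∈ Zr M φ f ↔
      (F.map (algebraMap (integralClosure ℤ (AlgebraicClosure K)) (AlgebraicClosure K))).eval z = 0 := by
    intro z
    show (f.map ((φ : M →+* AlgebraicClosure K).comp (algebraMap (𝓞 M) M))).eval z = 0 ↔ _
    rw [hFdef, Polynomial.map_map]
    rfl
  have hZr' : Zr M φ f = {z | (F.map (algebraMap (integralClosure ℤ (AlgebraicClosure K)) (AlgebraicClosure K))).eval z = 0} := by
    ext z; exact hZr z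
  have hFr : F.map r = (rd 𝔭 f).map ι := by
    rw [hFdef, Polynomial.map_map, Polynomial.map_map, hι]
  have hsZ : ∀ z ∈ Zr M φ f, s z ∈ Zr M φ f := by
    intro z hz
    have h1 : (f.map ((φ : M →+* AlgebraicClosure K).comp (algebraMap (𝓞 M) M))).eval z = 0 := hz
    show (f.map ((φ : M →+* AlgebraicClosure K).comp (algebraMap (𝓞 M) M))).eval (s z) = 0
    rw [eval_map] at h1 ⊢
    have h2 := congrArg s h1
    rw [map_zero] at h2
    rw [← h2]
    have h3 := Polynomial.hom_eval₂ f ((φ : M →+* AlgebraicClosure K).comp (algebraMap (𝓞 M) M))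
      (s : AlgebraicClosure K →+* AlgebraicClosure K) z
    have h4 : (s : AlgebraicClosure K →+* AlgebraicClosure K).comp
        ((φ : M →+* AlgebraicClosure K).comp (algebraMap (𝓞 M) M)) =
        (φ : M →+* AlgebraicClosure K).comp (algebraMap (𝓞 M) M) := by
      ext a
      exact congrArg (fun t : M →ₐ[K] AlgebraicClosure K => t (algebraMap (𝓞 M) M a)) hs
    rw [h4] at h3
    exact h3.symm
  have hsj : ∀ (j : ℕ), ∀ z ∈ Zr M φ f, (s ^ j) z ∈ Zr M φ f := by
    intro j
    induction j with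
    | zero => intro z hz; simpa using hz
    | succ j ih =>
      intro z hz
      rw [pow_succ']
      exact hsZ _ (ih z hz)
  have key : (rd 𝔭 f).Separable → ∃ ρ : AlgebraicClosure K → k,
      (Zr M φ f).ncard = 2 * g + 1 ∧ Set.InjOn ρ (Zr M φ f) ∧
      (∀ z ∈ Zr M φ f, ((rd 𝔭 f).map ι).eval (ρ z) = 0) ∧
      (∀ y : k, ((rd 𝔭 f).map ι).eval y = 0 → ∃ z ∈ Zr M φ f, ρ z = y) ∧
      ∀ (j : ℕ), ∀ z ∈ Zr M φ f, ρ ((s ^ j) z) = ρ z ^ q ^ j := by
    intro hsep
    have hs2 : (F.map r).Separable := by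
      rw [hFr]; exact hsep.map
    obtain ⟨ρ, h1, h2', h3', h4, h5⟩ := red F hFm r hs2
    have h2 : (Zr M φ f).ncard = F.natDegree := by
      rw [hZr']; exact h2'
    have h3 : Set.InjOn ρ (Zr M φ f) := by
      rw [hZr']; exact h3'
    have hρs : ∀ z ∈ Zr M φ f, ρ (s z) = ρ z ^ q := by
      intro z hz
      obtain ⟨y, hy, hy2⟩ := hfr z hz
      obtain ⟨x, hx⟩ : ∃ x : (integralClosure ℤ (AlgebraicClosure K)), (x : AlgebraicClosure K) = z :=
        (h4 z ((hZr z).1 hz)).2
      obtain ⟨x', hx'⟩ : ∃ x : (integralClosure ℤ (AlgebraicClosure K)), (x : AlgebraicClosure K) = s z :=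
        (h4 (s z) ((hZr _).1 (hsZ z hz))).2
      have h1' : ∀ x : (integralClosure ℤ (AlgebraicClosure K)), ρ (x : AlgebraicClosure K) = r x := h1
      have h6 : y = x' - x ^ q := by
        apply Subtype.ext
        rw [hy2, ← hx', ← hx]
        rfl
      have h7 : r (x' - x ^ q) = 0 := by
        rw [hr0, ← h6]; exact hy
      have h8 : r x' = r x ^ q := by
        rw [map_sub, map_pow, sub_eq_zero] at h7; exact h7
      rw [← hx', ← hx, h1', h1', h8]
    refine ⟨ρ, ?_, h3, ?_, ?_, ?_⟩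
    · rw [h2, hFdef, hf.natDegree_map, hdeg]
    · intro z hz
      rw [← hFr]
      exact (h4 z ((hZr z).1 hz)).1
    · intro y hy
      rw [← hFr] at hy
      obtain ⟨z, hz, hz2⟩ := h5 y hy
      exact ⟨z, (hZr z).2 hz, hz2⟩
    · intro j
      induction j with
      | zero => intro z hz; simp
      | succ j ih =>
        intro z hz
        rw [pow_succ']
        show ρ (s ((s ^ j) z)) = _
        rw [hρs _ (hsj j z hz), ih z hz, ← pow_mul, pow_succ]
  constructor
  · intro hirr
    have hsep : (rd 𝔭 f).Separable := PerfectField.separable_of_irreducible hirr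
    obtain ⟨ρ, h1, h2, h3, h4, h5⟩ := key hsep
    refine ⟨h1, ?_⟩
    intro z hz
    apply h2 (hsj _ z hz) hz
    rw [h5 _ z hz]
    have h6 := (hFF κ k (rd 𝔭 f) (ρ z) hirr (by
      rw [aeval_def, ← eval_map]; exact h3 z hz)).1
    rw [hcard, show (rd 𝔭 f).natDegree = 2 * g + 1 by rw [hf.natDegree_map, hdeg]] at h6
    exact h6
  · intro hh hhdeg hirr hcg
    have hrd : rd 𝔭 f = X * rd 𝔭 h := by
      have : rd 𝔭 f = rd 𝔭 (X * h) := by
        ext j
        rw [coeff_map, coeff_map, ← sub_eq_zero, ← map_sub]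
        exact Ideal.Quotient.eq_zero_iff_mem.2 (hcg j)
      rw [this]
      simp [rd]
    have hdegh : (rd 𝔭 h).natDegree = 2 * g := by rw [hh.natDegree_map, hhdeg]
    have hcop : IsCoprime (X : κ[X]) (rd 𝔭 h) := by
      rw [Polynomial.irreducible_X.coprime_iff_not_dvd]
      intro hdvd
      obtain ⟨u, hu⟩ := hdvd
      rcases hirr.isUnit_or_isUnit hu with h6 | h6
      · exact Polynomial.not_isUnit_X h6
      · have h7 : (rd 𝔭 h).natDegree = 1 := by
          have hu0 : u ≠ 0 := h6.ne_zero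
          have h8 : (rd 𝔭 h).natDegree = (X * u : κ[X]).natDegree := congrArg _ hu
          rw [h8, natDegree_mul X_ne_zero hu0, natDegree_X, natDegree_eq_zero_of_isUnit h6]
        omega
    have hsep : (rd 𝔭 f).Separable := by
      rw [hrd]
      exact Polynomial.Separable.mul Polynomial.separable_X
        (PerfectField.separable_of_irreducible hirr) hcop
    obtain ⟨ρ, h1, h2, h3, h4, h5⟩ := key hsep
    have hev : ∀ y : k, ((rd 𝔭 f).map ι).eval y = y * ((rd 𝔭 h).map ι).eval y := by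
      intro y
      rw [hrd]
      simp
    obtain ⟨z₀, hz₀, hz₀2⟩ := h4 0 (by rw [hev]; simp)
    refine ⟨h1, z₀, hz₀, ?_, ?_⟩
    · apply h2 (hsj _ z₀ hz₀) hz₀
      rw [h5 _ z₀ hz₀, hz₀2, zero_pow (pow_ne_zero _ hq.ne_zero)]
    · intro z hz z' hz' hzn hzn'
      have hnz : ∀ z ∈ Zr M φ f, z ≠ z₀ → aeval (ρ z) (rd 𝔭 h) = 0 := by
        intro z hz hzn
        have h6 : ρ z ≠ 0 := by
          intro h7
          exact hzn (h2 hz hz₀ (h7.trans hz₀2.symm))
        have h8 := h3 z hz
        rw [hev] at h8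
        rw [aeval_def, ← eval_map]
        exact (mul_eq_zero.1 h8).resolve_left h6
      have h6 := hFF κ k (rd 𝔭 h) (ρ z) hirr (hnz z hz hzn)
      rw [hcard, hdegh] at h6
      obtain ⟨h7, h8⟩ := h6
      obtain ⟨i, hi⟩ := h8 (ρ z') (hnz z' hz' hzn')
      refine ⟨i, ?_⟩
      rw [← pow_mul]
      apply h2 hz' (hsj _ z hz)
      rw [h5 _ z hz, hi]
      have h9 : ∀ i : ℕ, ρ z ^ q ^ (2 * g * i) = ρ z := by
        intro i
        induction i with
        | zero => simp
        | succ i ih => rw [Nat.mul_succ, pow_add, pow_mul, ih, h7]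
      rw [show (2 * g + 1) * i = 2 * g * i + i by ring, pow_add, pow_mul, h9]

end Pool.Agent.N749.WR
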